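import Pool.Agent.H7.MF.Stmts
import Pool.Agent.H56.GV.LIPG

/-!
# Board `mf18`, row LPE
-/

set_option autoImplicit false

open Finset

namespace Pool.MF7

open Pool.Agent.H23.KT Pool.Agent.H46.KW Pool.KQ Pool.GT7 Pool.GU7 Pool.GV7

theorem lpe_thm (hCCK : CCK0Stmt) (hKU : KUEStmt) (hDKU : DKUStmt) (hDML : DMLStmt)
    (hXSP : XSP0Stmt) (hNET : NETEStmt) (hSIZ : SIZ0Stmt) (hXGR : XGR0Stmt) (hLMB : LMB0Stmt)
    (_hGCO : GCO0Stmt) (hGCE : GCEStmt) (hTRV : TRVStmt) : LPEStmt := by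
  intro p w r hP
  obtain ⟨h0, -⟩ := hGCE p w r hP
  have hw : 1 ≤ w := le_trans (by norm_num) hP.w2
  exact LIPG_thm hCCK hDKU hDML hXSP hSIZ hXGR hLMB hTRV p w r h0 (hNET p w r h0 hw hP.s1)
    (fun G a e C W P U hS he he1 hCB z hz => hKU G p w r a e C W P U hP hS he he1 hCB z hz)

end Pool.MF7
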